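import Pool.Agent.Q21.RDU.Low
import Pool.Agent.Q21.RDU.Seven

/-!
# The optimal RDU bounds of commutative, von Neumann regular and stable rank one rings

Let `n ≥ 3`, let `σ` be an invertible `n × n` matrix over a ring `R`, `i ≠ j` and `k ≠ l`. How many
`E_n(R)`-conjugates of `σ` and of `σ⁻¹` are needed to write the elementary transvection
`t_kl(σ_ij)` as their product?  The answers are: `8` for commutative rings, `4` for von Neumann
regular rings, and `8` for rings of stable rank one.

* **Upper bounds.** If `ψ σ_{*j} z = 0`, `g = 1 + u φ` and `k = 1 + σ_{*j} z ψ`, then `k` commutes with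
  `σ g σ⁻¹`, so that `[g, k]` is a product of four conjugates, and it is the transvection
  `1 + u (φ σ_{*j} z) ψ`. If `σ_ij` is a von Neumann regular element, this gives `t_kl(σ_ij)` at once. In
  general it is applied to a commutator `ξ = [τ⁻¹, σ⁻¹]`, whose column `j` is `e_j + e_q β`, which costs
  twice as many factors.
* **Lower bound `8`.** Let `R = 𝔽₂ ⊕ V` with `V² = 0` and `dim V = 9`, and let `σ = 1 + Y`, where the
  entries of `Y` are a basis of `V`. Here `σ⁻¹ = σ`, and a product of conjugates is `1 + ∑ g⁻¹ Y g` with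
  `g ∈ GL_3(𝔽₂)`. So we need `∑ g⁻¹ ⊗ g = e_ki ⊗ e_jl` in `M_3(𝔽₂) ⊗ M_3(𝔽₂)`. The number of the terms is
  even, and it is not `2`, `4` or `6` by an inequality for the ranks of the two families `g`, `g⁻¹`: one
  of them would span, together with `e_jl` or `e_ki`, a space of dimension at most three, which would
  have to consist of `0`, `e_jl` and six invertible matrices. The ring `R` is commutative and local.
* **Lower bound `4`.** The companion matrix of `x³ - 3` over the field with seven elements.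
-/

set_option autoImplicit false

namespace Pool.Agent.Results.MP_2b3a02_al.OptimalBounds

universe u v

/-- `GL_n(R)`, the group of the invertible `n × n` matrices over `R`. -/
abbrev GLn (n : ℕ) (R : Type u) [Ring R] : Type u := (Matrix (Fin n) (Fin n) R)ˣ

/-- `E_n(R)`, the subgroup generated by the elementary transvections `t_kl(a) = 1 + a e_kl`, `k ≠ l`. -/
def En (n : ℕ) (R : Type u) [Ring R] : Subgroup (GLn n R) :=
  Subgroup.closure {g | ∃ (k l : Fin n) (a : R), k ≠ l ∧
    (g : Matrix (Fin n) (Fin n) R) = 1 + Matrix.single k l a}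

/-- `m` is an RDU bound for `GL_n(R)`: for all `σ`, `k ≠ l` and `i ≠ j` the matrix `t_kl(σ_ij)` is a
product of at most `m` factors, each an `E_n(R)`-conjugate of `σ` or of `σ⁻¹`. -/
def IsBoundGL (m n : ℕ) (R : Type u) [Ring R] : Prop :=
  ∀ (σ : GLn n R) (k l i j : Fin n), k ≠ l → i ≠ j →
    ∃ L : List (GLn n R), L.length ≤ m ∧
      (∀ x ∈ L, ∃ τ ∈ En n R, x = τ⁻¹ * σ * τ ∨ x = τ⁻¹ * σ⁻¹ * τ) ∧
      ((L.prod : GLn n R) : Matrix (Fin n) (Fin n) R) =
        1 + Matrix.single k l ((σ : Matrix (Fin n) (Fin n) R) i j)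

/-- `m` is an RDU bound for the ring `R`: it is one for `GL_n(R)` for all `n ≥ 3`. -/
def IsRDUBound (m : ℕ) (R : Type u) [Ring R] : Prop := ∀ n, 3 ≤ n → IsBoundGL m n R

/-- `R` is von Neumann regular. -/
def VonNeumannRegular (R : Type u) [Ring R] : Prop := ∀ a : R, ∃ x : R, a * x * a = a

/-- `R` has stable rank one: whenever `R a + R b = R`, there is `c` such that `a + c b` is a unit. -/
def StableRankOne (R : Type u) [Ring R] : Prop :=
  ∀ a b : R, (∃ x y : R, x * a + y * b = 1) → ∃ c : R, IsUnit (a + c * b)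

open Pool.Agent.Q21.RDU

private lemma pc_iff {n : ℕ} {R : Type u} [Ring R] (σ : GLn n R) {k l : Fin n} (hkl : k ≠ l) (a : R)
    (m : ℕ) : PC (Elem (Fin n) R) σ m (tv k l hkl a) ↔
      ∃ L : List (GLn n R), L.length ≤ m ∧
      (∀ x ∈ L, ∃ τ ∈ En n R, x = τ⁻¹ * σ * τ ∨ x = τ⁻¹ * σ⁻¹ * τ) ∧
      ((L.prod : GLn n R) : Matrix (Fin n) (Fin n) R) = 1 + Matrix.single k l a := by
  constructor
  · rintro ⟨L, h1, h2, h3⟩
    exact ⟨L, h1, h2, by rw [h3, tv_val]⟩
  · rintro ⟨L, h1, h2, h3⟩
    exact ⟨L, h1, h2, Units.ext (by rw [h3, tv_val])⟩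

/-- transport along an isomorphism of rings -/
private lemma transport {R : Type u} {S : Type v} [Ring R] [Ring S] (e : R ≃+* S) {m n : ℕ}
    (h : IsBoundGL m n R) : IsBoundGL m n S := by
  intro σ k l i j hkl hij
  let f : Matrix (Fin n) (Fin n) R ≃* Matrix (Fin n) (Fin n) S := (e.mapMatrix).toMulEquiv
  let F : GLn n R ≃* GLn n S := Units.mapEquiv f
  obtain ⟨L, h1, h2, h3⟩ := h (F.symm σ) k l i j hkl hij
  have hE : ∀ τ ∈ En n R, F τ ∈ En n S := by
    intro τ hτ
    have h4 : (En n R).map F.toMonoidHom ≤ En n S := by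
      unfold En
      rw [MonoidHom.map_closure, Subgroup.closure_le]
      rintro _ ⟨g, ⟨k, l, a, hkl, hg⟩, rfl⟩
      refine Subgroup.subset_closure ⟨k, l, e a, hkl, ?_⟩
      show (g : Matrix (Fin n) (Fin n) R).map e = _
      rw [hg, Matrix.map_add e (fun x y => map_add e x y), Matrix.map_single]
      congr 1
      exact Matrix.map_one e (map_zero e) (map_one e)
    exact h4 ⟨τ, hτ, rfl⟩
  have hσ : F (F.symm σ) = σ := F.apply_symm_apply σ
  refine ⟨L.map F, by rw [List.length_map]; exact h1, ?_, ?_⟩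
  · intro x hx
    obtain ⟨y, hy, rfl⟩ := List.mem_map.1 hx
    obtain ⟨τ, hτ, h | h⟩ := h2 y hy
    · exact ⟨F τ, hE τ hτ, Or.inl (by rw [h, map_mul, map_mul, map_inv, hσ])⟩
    · exact ⟨F τ, hE τ hτ, Or.inr (by rw [h, map_mul, map_mul, map_inv, map_inv, hσ])⟩
  · rw [← map_list_prod]
    show ((L.prod : GLn n R) : Matrix (Fin n) (Fin n) R).map e = _
    rw [h3, Matrix.map_add e (fun x y => map_add e x y), Matrix.map_single,
      Matrix.map_one e (map_zero e) (map_one e)]
    congr 2
    show e (e.symm _) = _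
    exact e.apply_symm_apply _

/-- The optimal RDU bound of the class of commutative rings is `8`, that of the class of von Neumann
regular rings is `4`, and that of the class of rings of stable rank one is `8`. -/
theorem result :
    IsLeast {m : ℕ | ∀ (R : Type u) [CommRing R], IsRDUBound m R} 8 ∧
    IsLeast {m : ℕ | ∀ (R : Type u) [Ring R], VonNeumannRegular R → IsRDUBound m R} 4 ∧
    IsLeast {m : ℕ | ∀ (R : Type u) [Ring R], StableRankOne R → IsRDUBound m R} 8 := by
  have low : ∀ m : ℕ, IsRDUBound m (ULift.{u} R₀) → 8 ≤ m := by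
    intro m h
    have h1 := transport (ULift.ringEquiv : ULift.{u} R₀ ≃+* R₀) (h 3 le_rfl)
    have h2 := h1 sg 0 1 0 1 (by decide) (by decide)
    exact low_R₀ 0 1 0 1 (by decide) (by decide) m ((pc_iff sg (by decide) _ m).2 h2)
  refine ⟨⟨?_, ?_⟩, ⟨?_, ?_⟩, ⟨?_, ?_⟩⟩
  · intro R _ n hn σ k l i j hkl hij
    exact (pc_iff σ hkl _ 8).1 (eight_comm (by rwa [Fintype.card_fin]) σ hij hkl)
  · intro m hm
    exact low m (hm (ULift.{u} R₀))
  · intro R _ hR n hn σ k l i j hkl hij
    obtain ⟨b, hb⟩ := hR ((σ : Matrix (Fin n) (Fin n) R) i j)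
    exact (pc_iff σ hkl _ 4).1 (four_factors (by rwa [Fintype.card_fin]) σ hij hkl b hb)
  · intro m hm
    have h0 : VonNeumannRegular (ULift.{u} Seven.F) := by
      rintro ⟨a⟩
      refine ⟨⟨a⁻¹⟩, ?_⟩
      apply ULift.ext
      show a * a⁻¹ * a = a
      by_cases ha : a = 0
      · rw [ha, mul_zero]
      · rw [mul_inv_cancel₀ ha, one_mul]
    have h1 := transport (ULift.ringEquiv : ULift.{u} Seven.F ≃+* Seven.F) (hm _ h0 3 le_rfl)
    have h2 := h1 Seven.sg7 0 1 1 0 (by decide) (by decide)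
    exact Seven.low_7 0 1 (by decide) m ((pc_iff Seven.sg7 (by decide) _ m).2 h2)
  · intro R _ hR n hn σ k l i j hkl hij
    exact (pc_iff σ hkl _ 8).1 (eight_sr hR (by rwa [Fintype.card_fin]) σ hij hkl)
  · intro m hm
    refine low m (hm (ULift.{u} R₀) ?_)
    rintro ⟨a⟩ ⟨b⟩ ⟨⟨x⟩, ⟨y⟩, h⟩
    have h' : x * a + y * b = 1 := congrArg ULift.down h
    obtain ⟨c, hc⟩ := sr_R₀ a b ⟨x, y, h'⟩
    refine ⟨⟨c⟩, ?_⟩
    have := hc.map (ULift.ringEquiv.{0, u} : ULift.{u} R₀ ≃+* R₀).symm
    exact this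

end Pool.Agent.Results.MP_2b3a02_al.OptimalBounds
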